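import Pool.Agent.H56.Scp3

set_option autoImplicit false

namespace Pool.Agent.Results.MP_52c726_an.NoComp
open Set Cardinal TopologicalSpace Pool.Agent.H56.Scp

/-- The density of a space: the least cardinality of a dense subset. -/
noncomputable def dens (Y : Type) [TopologicalSpace Y] : Cardinal :=
  sInf {c | ∃ D : Set Y, Dense D ∧ #D = c}

/-- `V` is the range of a bounded linear projection of `X`. -/
def Complemented (𝕜 : Type) [RCLike 𝕜] {X : Type} [NormedAddCommGroup X] [NormedSpace 𝕜 X]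
    (V : Submodule 𝕜 X) : Prop :=
  ∃ P : X →L[𝕜] X, (∀ x, P (P x) = P x) ∧ range P = (V : Set X)

/-- The separable complementation property: each separable (closed linear) subspace lies inside a
separable complemented subspace. -/
def SCP (𝕜 : Type) [RCLike 𝕜] (X : Type) [NormedAddCommGroup X] [NormedSpace 𝕜 X] : Prop :=
  ∀ S : Submodule 𝕜 X, IsClosed (S : Set X) → SeparableSpace S →
    ∃ V : Submodule 𝕜 X, IsClosed (V : Set X) ∧ SeparableSpace V ∧ S ≤ V ∧ Complemented 𝕜 V

lemma dens_mem (Y : Type) [TopologicalSpace Y] : ∃ D : Set Y, Dense D ∧ #D = dens Y :=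
  csInf_mem (s := {c | ∃ D : Set Y, Dense D ∧ #D = c}) ⟨_, univ, dense_univ, rfl⟩

theorem result (𝕜 : Type) [RCLike 𝕜] :
    ∃ (X : Type) (_ : NormedAddCommGroup X) (_ : NormedSpace 𝕜 X) (_ : CompleteSpace X),
      SCP 𝕜 X ∧ ∃ W : Submodule 𝕜 X, IsClosed (W : Set X) ∧ dens W = ℵ₁ ∧
        ¬ ∃ V : Submodule 𝕜 X, IsClosed (V : Set X) ∧ W ≤ V ∧ Complemented 𝕜 V ∧
          dens V = ℵ₁ := by
  obtain ⟨Γ, B, K, A, hΓ, hB, a1, a2, a3, a4, a5⟩ := exists_comb
  obtain ⟨X, i1, i2, i3, u, ev, h0, h1, h2, hd⟩ := exists_space (co 𝕜 A) (co_le A)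
  have hscp : SCP 𝕜 X := by
    intro S _ hsep
    obtain ⟨D, hD, hDd⟩ := exists_countable_dense S
    choose T hT1 hT2 using exists_supp hd
    obtain ⟨T', h3, h4, P, h5, h6⟩ := scp h0 h1 h2 hd a1 a2 a3 (⋃ x ∈ D, T x.1)
      (hD.biUnion fun x _ => hT1 _)
    refine ⟨(Submodule.span 𝕜 (u '' T')).topologicalClosure,
      Submodule.isClosed_topologicalClosure _,
      (((h4.image u).isSeparable.span (R := 𝕜)).closure).separableSpace, fun x hx => ?_,
      P, fun x => h6 _ (h5 x), ?_⟩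
    · have : x ∈ closure (Subtype.val '' D) :=
        image_closure_subset_closure_image continuous_subtype_val ⟨⟨x, hx⟩, hDd _, rfl⟩
      refine closure_minimal ?_ isClosed_closure this
      rintro _ ⟨y, hy, rfl⟩
      exact closure_mono (Submodule.span_mono (image_mono
        ((subset_biUnion_of_mem (u := fun x : S => T x.1) hy).trans h3))) (hT2 y.1)
    · exact Subset.antisymm (range_subset_iff.2 h5) fun x hx => ⟨x, h6 x hx⟩
  let W := (Submodule.span 𝕜 (range fun y => u (.inl y))).topologicalClosure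
  have hno : ∀ V : Submodule 𝕜 X, W ≤ V → Complemented 𝕜 V → ∀ D : Set V, Dense D →
      #D ≤ ℵ₁ → False := by
    rintro V hWV ⟨P, hP1, hP2⟩ D hD hc
    refine nocomp h0 h1 h2 hd hB a1 a2 a3 a4 a5 P (fun y => ?_) (Subtype.val '' D)
      (mk_image_le.trans hc) fun x => ?_
    · obtain ⟨z, hz⟩ : u (.inl y) ∈ range P := hP2 ▸ hWV
        (Submodule.le_topologicalClosure _ (Submodule.subset_span ⟨y, rfl⟩))
      rw [← hz, hP1]
    · exact image_closure_subset_closure_image continuous_subtype_val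
        ⟨⟨P x, by rw [← SetLike.mem_coe, ← hP2]; exact ⟨x, rfl⟩⟩, hD _, rfl⟩
  refine ⟨X, i1, i2, i3, hscp, W, Submodule.isClosed_topologicalClosure _, le_antisymm ?_ ?_, ?_⟩
  · obtain ⟨D, d1, d2, d3⟩ := exists_dense_card (𝕜 := 𝕜) (fun y => u (.inl y)) ℵ₁
      aleph0_lt_aleph_one.le hΓ
    refine (csInf_le' (s := {c | ∃ D : Set W, Dense D ∧ #D = c})
      ⟨Subtype.val ⁻¹' D, ?_, rfl⟩).trans
      ((mk_preimage_of_injective _ _ Subtype.val_injective).trans d3)
    intro x
    rw [Topology.IsInducing.subtypeVal.closure_eq_preimage_closure_image]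
    refine closure_mono ?_ (closure_minimal d2 isClosed_closure x.2)
    intro y hy
    exact ⟨⟨y, Submodule.le_topologicalClosure _ (d1 hy)⟩, hy, rfl⟩
  · by_contra hn
    obtain ⟨D, hD, hc⟩ := dens_mem W
    have hc' : D.Countable := le_aleph0_iff_set_countable.1
      (Order.lt_succ_iff.1 ((hc.trans_lt (not_le.1 hn)).trans_eq succ_aleph0.symm))
    obtain ⟨V, -, hV, hWV, hcV⟩ := hscp W (Submodule.isClosed_topologicalClosure _) ⟨D, hc', hD⟩
    obtain ⟨D', hD1, hD2⟩ := exists_countable_dense V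
    exact hno V hWV hcV D' hD2
      ((le_aleph0_iff_set_countable.2 hD1).trans aleph0_lt_aleph_one.le)
  · rintro ⟨V, -, hWV, hcV, hdV⟩
    obtain ⟨D, hD, hc⟩ := dens_mem V
    exact hno V hWV hcV D hD (hc.trans hdV).le

end Pool.Agent.Results.MP_52c726_an.NoComp
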